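import Pool.Agent.Helper82.BR.St

/-!
# Project BR, module CD: two pairs at 60 degrees in different hexagons
-/

set_option autoImplicit false

namespace Pool.Agent.Helper51.BR

open Pool.Agent.Helper82.BR

/-- CD. -/
theorem hCD : StCD := by
  intro D w p q hw hp hq hD hprod h1 h2 h3 h4 h5 h6
  have hw3 : w ^ 3 = -1 := by linear_combination (w + 1) * hw
  have hw0 : w ≠ 0 := by
    rintro rfl
    norm_num at hw3
  have n1 : w - 1 ≠ 0 := by
    intro h
    have : (1 : ℂ) = 0 := by linear_combination hw - w * h
    exact one_ne_zero this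
  have n2 : w ^ 2 - 1 ≠ 0 := by
    intro h
    have h' : w = 2 := by linear_combination h - hw
    rw [h'] at hw
    norm_num at hw
  have m0 : ∀ X : ℂ, p * X = 0 → X = 0 := fun X h => (mul_eq_zero.1 h).resolve_left hp
  have m1 : ∀ X : ℂ, q * X = 0 → X = 0 := fun X h => (mul_eq_zero.1 h).resolve_left hq
  have m2 : ∀ X : ℂ, w * X = 0 → X = 0 := fun X h => (mul_eq_zero.1 h).resolve_left hw0
  -- excluded relations
  have r1 : p - q ≠ 0 := fun h => h1 (by linear_combination -h)
  have r2 : q - p * w ≠ 0 := fun h => h2 (by linear_combination h)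
  have r3 : q - p * w ^ 2 ≠ 0 := fun h => h3 (by linear_combination h)
  have r4 : q + p ≠ 0 := fun h => h4 (by linear_combination h)
  have r5 : q + p * w ≠ 0 := fun h => h5 (by linear_combination h)
  have r6 : q + p * w ^ 2 ≠ 0 := fun h => h6 (by linear_combination h)
  have mp : p ∈ ({p, p * w, q, q * w} : Finset ℂ) := by simp
  have mpw : p * w ∈ ({p, p * w, q, q * w} : Finset ℂ) := by simp
  have mq : q ∈ ({p, p * w, q, q * w} : Finset ℂ) := by simp
  have mqw : q * w ∈ ({p, p * w, q, q * w} : Finset ℂ) := by simp
  have d1 := hprod _ mp _ mp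
  have d2 := hprod _ mp _ mpw
  have d3 := hprod _ mpw _ mpw
  have d4 := hprod _ mp _ mq
  have d5 := hprod _ mpw _ mq
  have d6 := hprod _ mpw _ mqw
  have d7 := hprod _ mq _ mq
  have d8 := hprod _ mq _ mqw
  have d9 := hprod _ mqw _ mqw
  set E : Finset ℂ := {p * p, p * (p * w), p * w * (p * w), p * q, p * w * q, p * w * (q * w)} with hE
  have hsub : E ⊆ D := by
    intro x hx
    rw [hE] at hx
    simp only [Finset.mem_insert, Finset.mem_singleton] at hx
    rcases hx with rfl | rfl | rfl | rfl | rfl | rfl <;> assumption
  have hcard : E.card = 6 := by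
    rw [hE, Finset.card_insert_of_notMem, Finset.card_insert_of_notMem,
      Finset.card_insert_of_notMem, Finset.card_insert_of_notMem, Finset.card_insert_of_notMem,
      Finset.card_singleton]
    · simp only [Finset.mem_singleton]
      intro h
      exact n1 (m0 _ (m1 _ (m2 _ (by linear_combination -h))))
    · simp only [Finset.mem_insert, Finset.mem_singleton, not_or]
      refine ⟨fun h => ?_, fun h => ?_⟩
      · exact n1 (m0 _ (m1 _ (by linear_combination -h)))
      · exact n2 (m0 _ (m1 _ (by linear_combination -h)))
    · simp only [Finset.mem_insert, Finset.mem_singleton, not_or]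
      refine ⟨fun h => ?_, fun h => ?_, fun h => ?_⟩
      · exact r3 (m0 _ (by linear_combination -h))
      · exact r2 (m0 _ (m2 _ (by linear_combination -h)))
      · exact r1 (m0 _ (m2 _ (m2 _ (by linear_combination h))))
    · simp only [Finset.mem_insert, Finset.mem_singleton, not_or]
      refine ⟨fun h => ?_, fun h => ?_, fun h => ?_, fun h => ?_⟩
      · exact n1 (m0 _ (m0 _ (m2 _ (by linear_combination -h))))
      · exact r2 (m0 _ (by linear_combination -h))
      · exact r1 (m0 _ (m2 _ (by linear_combination h)))
      · exact r6 (m0 _ (m2 _ (by linear_combination w ^ 2 * h + p * q * w * hw3)))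
    · simp only [Finset.mem_insert, Finset.mem_singleton, not_or]
      refine ⟨fun h => ?_, fun h => ?_, fun h => ?_, fun h => ?_, fun h => ?_⟩
      · exact n1 (m0 _ (m0 _ (by linear_combination -h)))
      · exact n2 (m0 _ (m0 _ (by linear_combination -h)))
      · exact r1 (m0 _ (by linear_combination h))
      · exact r6 (m0 _ (by linear_combination w ^ 2 * h + p * q * hw3))
      · exact r5 (m0 _ (by linear_combination w * h + p * q * hw3))
  have hDE : D = E := by
    symm
    exact Finset.eq_of_subset_of_card_le hsub (by rw [hcard]; exact hD)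
  rw [hDE, hE] at d7 d8 d9
  simp only [Finset.mem_insert, Finset.mem_singleton] at d7 d8 d9
  -- minus one is not a power
  have c1 : (2 : ℂ) ≠ 0 := two_ne_zero
  have c2 : w + 1 ≠ 0 := by
    intro h
    have h' : w = -1 := by linear_combination h
    rw [h'] at hw
    norm_num at hw
  have c3 : w ^ 2 + 1 ≠ 0 := by
    intro h
    apply hw0
    linear_combination h - hw
  have hpq : (q - p) * (q + p) ≠ 0 := mul_ne_zero (fun h => r1 (by linear_combination -h)) r4
  have key7 : q * q = p * p * w ∨ q * q = p * p * w ^ 2 := by
    rcases d7 with h | h | h | h | h | h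
    · exact absurd (show (q - p) * (q + p) = 0 by linear_combination h) hpq
    · left
      linear_combination h
    · right
      linear_combination h
    · exact absurd (m1 (p - q) (by linear_combination -h)) r1
    · exact absurd (m1 (q - p * w) (by linear_combination h)) r2
    · exact absurd (m1 (q - p * w ^ 2) (by linear_combination h)) r3
  rcases key7 with k | k
  · -- `q² w² = - p²`
    rcases d9 with h | h | h | h | h | h
    · exact c1 (m0 _ (m0 _ (by linear_combination w ^ 2 * k - h + p * p * hw3)))
    · exact c2 (m0 _ (m0 _ (by linear_combination w ^ 2 * k - h + p * p * hw3)))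
    · exact c3 (m0 _ (m0 _ (by linear_combination w ^ 2 * k - h + p * p * hw3)))
    · exact r5 (m1 _ (m2 _ (m2 _ (by linear_combination h + p * q * hw3))))
    · exact r6 (m1 _ (m2 _ (m2 _ (by linear_combination h + p * q * w * hw3))))
    · exact r1 (m1 _ (m2 _ (m2 _ (by linear_combination -h))))
  · rcases d8 with h | h | h | h | h | h
    · exact c1 (m0 _ (m0 _ (by linear_combination w * k - h + p * p * hw3)))
    · exact c2 (m0 _ (m0 _ (by linear_combination w * k - h + p * p * hw3)))
    · exact c3 (m0 _ (m0 _ (by linear_combination w * k - h + p * p * hw3)))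
    · exact r6 (m1 _ (m2 _ (by linear_combination h + p * q * hw3)))
    · exact r1 (m1 _ (m2 _ (by linear_combination -h)))
    · exact r2 (m1 _ (m2 _ (by linear_combination h)))

end Pool.Agent.Helper51.BR
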